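import Mathlib

set_option autoImplicit false
set_option linter.unusedSimpArgs false

namespace Pool.Agent.Results.MP_fa5fea_an.FivePoints

open Matrix
open scoped Kronecker

/-- `γ` is an irreducible representation of the Clifford relations by Hermitian matrices. -/
def IsIrredClifford {d k : ℕ} (γ : Fin d → Matrix (Fin k) (Fin k) ℂ) : Prop :=
  0 < k ∧ (∀ j, (γ j).IsHermitian) ∧
  (∀ j l, γ j * γ l + γ l * γ j = if j = l then 2 else 0) ∧
  ∀ W : Submodule ℂ (Fin k → ℂ), (∀ j, ∀ v ∈ W, γ j *ᵥ v ∈ W) → W = ⊥ ∨ W = ⊤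

/-- The spectral localizer. -/
def localizer {n d k : ℕ} (γ : Fin d → Matrix (Fin k) (Fin k) ℂ)
    (A : Fin d → Matrix (Fin n) (Fin n) ℂ) (lam : Fin d → ℝ) :
    Matrix (Fin n × Fin k) (Fin n × Fin k) ℂ :=
  ∑ j, (A j - (lam j : ℂ) • (1 : Matrix (Fin n) (Fin n) ℂ)) ⊗ₖ γ j

/-- The Clifford spectrum. -/
def cliffordSpectrum {n d k : ℕ} (γ : Fin d → Matrix (Fin k) (Fin k) ℂ)
    (A : Fin d → Matrix (Fin n) (Fin n) ℂ) : Set (Fin d → ℝ) :=
  {lam | ¬ IsUnit (localizer γ A lam)}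

/-- The Pauli matrices. -/
noncomputable def pauli : Fin 3 → Matrix (Fin 2) (Fin 2) ℂ :=
  ![!![0, 1; 1, 0], !![0, -Complex.I; Complex.I, 0], !![1, 0; 0, -1]]

/-- The example. -/
noncomputable def A : Fin 3 → Matrix (Fin 3) (Fin 3) ℂ :=
  ![!![0, 0, 0; 0, 0, 1; 0, 1, 0], !![0, 0, 1; 0, 0, 0; 1, 0, 0], !![0, 1, 0; 1, 0, 0; 0, 0, 0]]

theorem det6 (x y z : ℂ) :
    (!![-z, -x + y * Complex.I, 1, 0, 0, -Complex.I;
        -x - y * Complex.I, z, 0, -1, Complex.I, 0;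
        1, 0, -z, -x + y * Complex.I, 0, 1;
        0, -1, -x - y * Complex.I, z, 1, 0;
        0, -Complex.I, 0, 1, -z, -x + y * Complex.I;
        Complex.I, 0, 1, 0, -x - y * Complex.I, z] : Matrix (Fin 6) (Fin 6) ℂ).det
      = -((x^2+y^2+z^2) * (1 + (x^2+y^2+z^2))^2 - 16 * x * y * z) := by
  have hI : Complex.I ^ 2 = -1 := Complex.I_sq
  have hI3 : Complex.I ^ 3 = -Complex.I := by rw [pow_succ, hI]; ring
  have hI4 : Complex.I ^ 4 = 1 := by rw [show 4 = 2 * 2 from rfl, pow_mul, hI]; ring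
  have hI5 : Complex.I ^ 5 = Complex.I := by rw [pow_succ, hI4]; ring
  have hI6 : Complex.I ^ 6 = -1 := by rw [show 6 = 2 * 3 from rfl, pow_mul, hI]; ring
  simp [Matrix.det_succ_row_zero, Fin.sum_univ_succ, Fin.succAbove]
  ring_nf
  simp only [hI, hI3, hI4, hI5, hI6]
  ring

/-- enumeration of the index set. -/
def e6 : Fin 6 → Fin 3 × Fin 2 := ![(0, 0), (0, 1), (1, 0), (1, 1), (2, 0), (2, 1)]

theorem e6_bij : Function.Bijective e6 := by decide

/-- enumeration of the index set, as an equivalence. -/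
noncomputable def E6 : Fin 6 ≃ Fin 3 × Fin 2 := Equiv.ofBijective e6 e6_bij

theorem loc_eq (lam : Fin 3 → ℝ) : (localizer pauli A lam).submatrix E6 E6 =
    !![-(lam 2 : ℂ), -(lam 0 : ℂ) + (lam 1 : ℂ) * Complex.I, 1, 0, 0, -Complex.I;
        -(lam 0 : ℂ) - (lam 1 : ℂ) * Complex.I, (lam 2 : ℂ), 0, -1, Complex.I, 0;
        1, 0, -(lam 2 : ℂ), -(lam 0 : ℂ) + (lam 1 : ℂ) * Complex.I, 0, 1;
        0, -1, -(lam 0 : ℂ) - (lam 1 : ℂ) * Complex.I, (lam 2 : ℂ), 1, 0;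
        0, -Complex.I, 0, 1, -(lam 2 : ℂ), -(lam 0 : ℂ) + (lam 1 : ℂ) * Complex.I;
        Complex.I, 0, 1, 0, -(lam 0 : ℂ) - (lam 1 : ℂ) * Complex.I, (lam 2 : ℂ)] := by
  have hE : ∀ i, E6 i = e6 i := fun i => rfl
  ext i j
  rw [Matrix.submatrix_apply, hE, hE]
  simp only [localizer, Fin.sum_univ_three, Matrix.add_apply, Matrix.kroneckerMap_apply,
    Matrix.sub_apply, Matrix.smul_apply, smul_eq_mul, Matrix.one_apply]
  fin_cases i <;> fin_cases j <;> simp [e6, A, pauli] <;> try ring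

theorem det_loc (lam : Fin 3 → ℝ) : (localizer pauli A lam).det =
    ((-((lam 0 ^2+lam 1 ^2+lam 2 ^2) * (1 + (lam 0 ^2+lam 1 ^2+lam 2 ^2))^2
      - 16 * lam 0 * lam 1 * lam 2) : ℝ) : ℂ) := by
  rw [← Matrix.det_submatrix_equiv_self E6, loc_eq, det6]
  push_cast
  ring

/-- The five points of the Clifford spectrum. -/
noncomputable def pt : Fin 5 → Fin 3 → ℝ :=
  ![![0, 0, 0], ![1/3, 1/3, 1/3], ![1/3, -1/3, -1/3], ![-1/3, 1/3, -1/3], ![-1/3, -1/3, 1/3]]

theorem amgm (p q w : ℝ) : (p + q + w) ^ 3 - 27 * (p * q * w)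
    = (1 / 2) * (p + q + w) * ((p - q) ^ 2 + (q - w) ^ 2 + (w - p) ^ 2)
      + 3 * (p * (q - w) ^ 2 + q * (w - p) ^ 2 + w * (p - q) ^ 2) := by ring

theorem solve {x y z : ℝ}
    (h : (x ^ 2 + y ^ 2 + z ^ 2) * (1 + (x ^ 2 + y ^ 2 + z ^ 2)) ^ 2 = 16 * x * y * z) :
    (x = 0 ∧ y = 0 ∧ z = 0) ∨ (x ^ 2 = 1 / 9 ∧ y ^ 2 = 1 / 9 ∧ z ^ 2 = 1 / 9 ∧ 0 < x * y * z) := by
  set R := x ^ 2 + y ^ 2 + z ^ 2 with hR
  have hp := sq_nonneg x
  have hq := sq_nonneg y
  have hw := sq_nonneg z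
  by_cases hR0 : R = 0
  · left
    have h1 : x ^ 2 = 0 := by linarith
    have h2 : y ^ 2 = 0 := by linarith
    have h3 : z ^ 2 = 0 := by linarith
    exact ⟨pow_eq_zero_iff two_ne_zero |>.mp h1, pow_eq_zero_iff two_ne_zero |>.mp h2,
      pow_eq_zero_iff two_ne_zero |>.mp h3⟩
  right
  have hRpos : 0 < R := lt_of_le_of_ne (by positivity) (Ne.symm hR0)
  have hsq : R ^ 2 * (1 + R) ^ 4 = 256 * (x ^ 2 * y ^ 2 * z ^ 2) := by
    have : (R * (1 + R) ^ 2) ^ 2 = (16 * x * y * z) ^ 2 := by rw [h]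
    linear_combination this
  have hag := amgm (x ^ 2) (y ^ 2) (z ^ 2)
  rw [← hR] at hag
  have hdef : 0 ≤ R ^ 3 - 27 * (x ^ 2 * y ^ 2 * z ^ 2) := by rw [hag]; positivity
  have hpoly : R ^ 2 * ((R - 1 / 3) ^ 2 * (R ^ 2 + 14 / 3 * R + 9)) * 27
      = - 256 * (R ^ 3 - 27 * (x ^ 2 * y ^ 2 * z ^ 2)) := by
    linear_combination 27 * hsq
  have hR13 : R = 1 / 3 := by
    have h1 : 0 ≤ R ^ 2 * ((R - 1 / 3) ^ 2 * (R ^ 2 + 14 / 3 * R + 9)) * 27 := by positivity
    have h2 : R ^ 2 * ((R - 1 / 3) ^ 2 * (R ^ 2 + 14 / 3 * R + 9)) * 27 = 0 := by linarith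
    have h3 : 0 < R ^ 2 + 14 / 3 * R + 9 := by positivity
    have h4 : 0 < R ^ 2 := by positivity
    have h5 : (R - 1 / 3) ^ 2 = 0 := by
      have h6 : (R - 1 / 3) ^ 2 * (R ^ 2 * (R ^ 2 + 14 / 3 * R + 9) * 27) = 0 := by
        linear_combination h2
      rcases mul_eq_zero.mp h6 with h | h
      · exact h
      · exfalso; have : 0 < R ^ 2 * (R ^ 2 + 14 / 3 * R + 9) * 27 := by positivity
        linarith
    have := pow_eq_zero_iff two_ne_zero |>.mp h5
    linarith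
  have hz0 : R ^ 3 - 27 * (x ^ 2 * y ^ 2 * z ^ 2) = 0 := by
    rw [hR13] at hpoly
    rw [hR13]
    linarith
  rw [hz0] at hag
  have hs : (x ^ 2 - y ^ 2) ^ 2 + (y ^ 2 - z ^ 2) ^ 2 + (z ^ 2 - x ^ 2) ^ 2 = 0 := by
    have h1 : 0 ≤ 3 * (x ^ 2 * (y ^ 2 - z ^ 2) ^ 2 + y ^ 2 * (z ^ 2 - x ^ 2) ^ 2
      + z ^ 2 * (x ^ 2 - y ^ 2) ^ 2) := by positivity
    have h2 : 0 ≤ (x ^ 2 - y ^ 2) ^ 2 + (y ^ 2 - z ^ 2) ^ 2 + (z ^ 2 - x ^ 2) ^ 2 := by positivity
    rw [hR13] at hag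
    linarith
  have s1 := sq_nonneg (x ^ 2 - y ^ 2)
  have s2 := sq_nonneg (y ^ 2 - z ^ 2)
  have s3 := sq_nonneg (z ^ 2 - x ^ 2)
  have h1 : (x ^ 2 - y ^ 2) ^ 2 = 0 := by linarith
  have h2 : (y ^ 2 - z ^ 2) ^ 2 = 0 := by linarith
  have h3 := pow_eq_zero_iff two_ne_zero |>.mp h1
  have h4 := pow_eq_zero_iff two_ne_zero |>.mp h2
  refine ⟨by linarith, by linarith, by linarith, ?_⟩
  have h5 : 0 < R * (1 + R) ^ 2 := by positivity
  rw [h] at h5
  linarith

theorem sq_cases {x : ℝ} (h : x ^ 2 = 1 / 9) : x = 1 / 3 ∨ x = -1 / 3 := by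
  have h1 : (x - 1 / 3) * (x + 1 / 3) = 0 := by linear_combination h
  rcases mul_eq_zero.mp h1 with h | h
  · left; linarith
  · right; linarith

theorem spec_eq : cliffordSpectrum pauli A = Set.range pt := by
  ext lam
  simp only [cliffordSpectrum, Set.mem_ofPred_eq, Matrix.isUnit_iff_isUnit_det, isUnit_iff_ne_zero,
    not_not]
  rw [det_loc]
  constructor
  · intro h
    have h1 : -((lam 0 ^2+lam 1 ^2+lam 2 ^2) * (1 + (lam 0 ^2+lam 1 ^2+lam 2 ^2))^2
      - 16 * lam 0 * lam 1 * lam 2) = 0 := by exact_mod_cast h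
    have hvec : ∀ a b c : ℝ, lam 0 = a → lam 1 = b → lam 2 = c → lam = ![a, b, c] := by
      intro a b c ha hb hc
      funext i
      fin_cases i
      · exact ha
      · exact hb
      · exact hc
    rcases solve (by linarith : (lam 0 ^ 2 + lam 1 ^ 2 + lam 2 ^ 2)
        * (1 + (lam 0 ^ 2 + lam 1 ^ 2 + lam 2 ^ 2)) ^ 2 = 16 * lam 0 * lam 1 * lam 2) with
      ⟨hx, hy, hz⟩ | ⟨hx, hy, hz, hpos⟩
    · exact ⟨0, (hvec _ _ _ hx hy hz).symm⟩
    · rcases sq_cases hx with hx | hx <;> rcases sq_cases hy with hy | hy <;>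
        rcases sq_cases hz with hz | hz
      · exact ⟨1, (hvec _ _ _ hx hy hz).symm⟩
      · exfalso; rw [hx, hy, hz] at hpos; norm_num at hpos
      · exfalso; rw [hx, hy, hz] at hpos; norm_num at hpos
      · exact ⟨2, (hvec _ _ _ hx hy hz).symm⟩
      · exfalso; rw [hx, hy, hz] at hpos; norm_num at hpos
      · exact ⟨3, (hvec _ _ _ hx hy hz).symm⟩
      · exact ⟨4, (hvec _ _ _ hx hy hz).symm⟩
      · exfalso; rw [hx, hy, hz] at hpos; norm_num at hpos
  · rintro ⟨i, rfl⟩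
    rw [Complex.ofReal_eq_zero]
    fin_cases i <;> simp [pt] <;> norm_num

theorem pt_inj : Function.Injective pt := by
  intro i j h
  have h0 := congrFun h 0
  have h1 := congrFun h 1
  have h2 := congrFun h 2
  fin_cases i <;> fin_cases j <;> first
    | rfl
    | (exfalso; norm_num [pt] at h0; done)
    | (exfalso; norm_num [pt] at h1; done)
    | (exfalso; norm_num [pt] at h2; done)

theorem pauli_irred : IsIrredClifford pauli := by
  refine ⟨by norm_num, ?_, ?_, ?_⟩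
  · intro j
    ext a b
    fin_cases j <;> fin_cases a <;> fin_cases b <;> simp [pauli, Matrix.conjTranspose_apply]
  · intro j l
    have h2 : (2 : Matrix (Fin 2) (Fin 2) ℂ) = !![2, 0; 0, 2] := by
      rw [← Matrix.diagonal_ofNat']
      ext a b
      fin_cases a <;> fin_cases b <;> simp
    ext a b
    fin_cases j <;> fin_cases l <;> simp only [pauli, h2] <;> fin_cases a <;> fin_cases b <;>
      simp [Matrix.mul_apply, Fin.sum_univ_two] <;> norm_num
  · intro W hW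
    by_cases hbot : W = ⊥
    · left; exact hbot
    right
    obtain ⟨v, hv, hv0⟩ := W.ne_bot_iff.mp hbot
    have hz := hW 2 v hv
    have ez : pauli 2 *ᵥ v = ![v 0, - v 1] := by
      funext i
      fin_cases i <;> simp [pauli, mulVec, dotProduct, Fin.sum_univ_two]
    rw [ez] at hz
    have hswap : ∀ a b : ℂ, ![a, b] ∈ W → ![b, a] ∈ W := by
      intro a b hab
      have h := hW 0 _ hab
      have e : pauli 0 *ᵥ ![a, b] = ![b, a] := by
        funext i
        fin_cases i <;> simp [pauli, mulVec, dotProduct, Fin.sum_univ_two]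
      rwa [e] at h
    have hv' : v = ![v 0, v 1] := by
      funext i
      fin_cases i <;> rfl
    have h1 : ![v 0, 0] ∈ W := by
      have h := W.smul_mem (1 / 2 : ℂ) (W.add_mem hv hz)
      have e : (1 / 2 : ℂ) • (v + ![v 0, - v 1]) = ![v 0, 0] := by
        funext i
        fin_cases i
        · change (1 / 2 : ℂ) * (v 0 + v 0) = v 0; ring
        · change (1 / 2 : ℂ) * (v 1 + - v 1) = 0; ring
      rwa [e] at h
    have h2 : ![0, v 1] ∈ W := by
      have h := W.smul_mem (1 / 2 : ℂ) (W.sub_mem hv hz)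
      have e : (1 / 2 : ℂ) • (v - ![v 0, - v 1]) = ![0, v 1] := by
        funext i
        fin_cases i
        · change (1 / 2 : ℂ) * (v 0 - v 0) = 0; ring
        · change (1 / 2 : ℂ) * (v 1 - - v 1) = v 1; ring
      rwa [e] at h
    have key : ∃ c : ℂ, c ≠ 0 ∧ ![c, 0] ∈ W := by
      by_cases h0 : v 0 = 0
      · refine ⟨v 1, ?_, hswap _ _ h2⟩
        intro h
        apply hv0
        rw [hv', h0, h]
        funext i
        fin_cases i <;> rfl
      · exact ⟨v 0, h0, h1⟩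
    obtain ⟨c, hc, hcW⟩ := key
    have e1 : (![1, 0] : Fin 2 → ℂ) ∈ W := by
      have h := W.smul_mem c⁻¹ hcW
      have e : c⁻¹ • (![c, 0] : Fin 2 → ℂ) = ![1, 0] := by
        funext i
        fin_cases i
        · simp [hc]
        · simp
      rwa [e] at h
    have e2 := hswap _ _ e1
    rw [eq_top_iff]
    intro u _
    have hu : u = u 0 • (![1, 0] : Fin 2 → ℂ) + u 1 • (![0, 1] : Fin 2 → ℂ) := by
      funext i
      fin_cases i <;> simp
    rw [hu]
    exact W.add_mem (W.smul_mem _ e1) (W.smul_mem _ e2)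

/-- There are Hermitian matrices (three matrices of size three) whose Clifford spectrum is finite,
but has more elements than the size of the matrices. -/
theorem result : ∃ (n d k : ℕ) (γ : Fin d → Matrix (Fin k) (Fin k) ℂ)
    (A : Fin d → Matrix (Fin n) (Fin n) ℂ), 1 ≤ n ∧ 1 ≤ d ∧ IsIrredClifford γ ∧
    (∀ j, (A j).IsHermitian) ∧ (cliffordSpectrum γ A).Finite ∧
    n < (cliffordSpectrum γ A).ncard := by
  refine ⟨3, 3, 2, pauli, A, by norm_num, by norm_num, pauli_irred, ?_, ?_, ?_⟩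
  · intro j
    ext a b
    fin_cases j <;> fin_cases a <;> fin_cases b <;> simp [A, Matrix.conjTranspose_apply]
  · rw [spec_eq]; exact Set.finite_range _
  · rw [spec_eq, ← Set.image_univ, Set.ncard_image_of_injective _ pt_inj, Set.ncard_univ]
    simp

end Pool.Agent.Results.MP_fa5fea_an.FivePoints
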